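import Mathlib
import Pool.Prelude.Def_F_c31e40fa
import Pool.Agent.V1186.CN.Cyc5

/-!
# The periods of the attracting cycles of the polynomials near typical unicritical polynomials

Let `c₀` be a parameter of the Multibrot set `M_d` whose critical value has the Lyapunov exponent
`χ > 0`; this is so at the landing point of almost every parameter ray, with `χ = log d`. In the space
`ℂ ^ (d + 1)` of the coefficients (with the maximum norm) let `T` be ANY polynomial at distance at most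
`r` from `z ^ d + c₀`. We prove that all the cycles of `T` of a period at most
`(1 - ε) log (1/r) / χ` are repelling, uniformly: the multiplier is at least `Λ ^ p`, `p` the period,
where `Λ > 1` depends on `c₀` only. Hence the distance from `z ^ d + c₀` to the polynomials with an
attracting (or a non-repelling) cycle of a period at most `n` is `exp (-(χ + o(1)) n)`, and the smallest
period of such a cycle in the ball of radius `r` is `(1/χ + o(1)) log (1/r)`.
-/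

set_option autoImplicit false

open MeasureTheory Filter Metric Topology Polynomial

namespace Pool.Agent.Results.MP_28f8a1_an.AttractingPeriods

open Pool.Agent.H713R2 (IsExteriorMap)

/-- The polynomial with the given coefficients. -/
noncomputable def poly {d : ℕ} (a : Fin (d + 1) → ℂ) : ℂ[X] :=
  ∑ i : Fin (d + 1), C (a i) * X ^ (i : ℕ)

/-- The coefficients of the polynomial `z ^ d + c₀`. -/
noncomputable def centre (d : ℕ) (c₀ : ℂ) : Fin (d + 1) → ℂ :=
  fun i => (X ^ d + C c₀ : ℂ[X]).coeff i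

/-- The polynomial with the coefficients `a` as a self-map of the plane. -/
noncomputable def map {d : ℕ} (a : Fin (d + 1) → ℂ) : ℂ → ℂ := fun z : ℂ => (poly a).eval z

/-- The polynomial `z ^ d + c`. -/
def f (d : ℕ) (c : ℂ) : ℂ → ℂ := fun z => z ^ d + c

/-- `z` is a periodic point of period `p` (or of a divisor of `p`). -/
def Periodic {d : ℕ} (a : Fin (d + 1) → ℂ) (z : ℂ) (p : ℕ) : Prop := 1 ≤ p ∧ (map a)^[p] z = z

/-- The modulus of the derivative of the `p`-th iterate at `z`: the modulus of the multiplier if `z` is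
periodic of period `p`. -/
noncomputable def mult {d : ℕ} (a : Fin (d + 1) → ℂ) (z : ℂ) (p : ℕ) : ℝ :=
  ‖deriv ((map a)^[p]) z‖

/-- The unicritical polynomials `z ^ d + c` whose critical point `0` is periodic of a period at
most `n`. -/
def Unicritical (d n : ℕ) : Set (Fin (d + 1) → ℂ) :=
  {a | ∃ c : ℂ, a = centre d c ∧ ∃ p : ℕ, 1 ≤ p ∧ p ≤ n ∧ (f d c)^[p] 0 = 0}

/-- The polynomials of degree `d` with an attracting cycle of a period at most `n`. -/
def Attracting (d n : ℕ) : Set (Fin (d + 1) → ℂ) :=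
  {a | a (Fin.last d) ≠ 0 ∧ ∃ p ≤ n, ∃ z : ℂ, Periodic a z p ∧ mult a z p < 1}

/-- The polynomials of degree `d` with a non-repelling cycle of a period at most `n`. -/
def NonRepelling (d n : ℕ) : Set (Fin (d + 1) → ℂ) :=
  {a | a (Fin.last d) ≠ 0 ∧ ∃ p ≤ n, ∃ z : ℂ, Periodic a z p ∧ mult a z p ≤ 1}

/-- `S n` lies between `Unicritical d n` and `NonRepelling d n`, for all `n`. -/
def Between (d : ℕ) (S : ℕ → Set (Fin (d + 1) → ℂ)) : Prop :=
  ∀ n : ℕ, Unicritical d n ⊆ S n ∧ S n ⊆ NonRepelling d n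

/-- The smallest `n` for which `S n` meets the open ball of radius `r` about `x`. -/
noncomputable def first {d : ℕ} (x : Fin (d + 1) → ℂ) (S : ℕ → Set (Fin (d + 1) → ℂ)) (r : ℝ) : ℕ :=
  sInf {n : ℕ | ∃ a ∈ S n, dist a x < r}

/-- The critical value of `z ^ d + c`, `c` in the Multibrot set, has the Lyapunov exponent `χ > 0`. -/
def Lyapunov (d : ℕ) (χ : ℝ) (c : ℂ) : Prop :=
  0 < χ ∧ c ∈ N62a1eb23.multibrotSet d ∧
    Tendsto (fun n : ℕ => Real.log ‖deriv ((f d c)^[n]) c‖ / n) atTop (𝓝 χ)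

theorem map_centre {d : ℕ} (hd : 2 ≤ d) (c : ℂ) : map (centre d c) = f d c := by
  funext z
  have h1 : poly (centre d c) = X ^ d + C c := Pool.Agent.V1186.CN.poly_centre (by omega) c
  show (poly (centre d c)).eval z = z ^ d + c
  rw [h1]
  simp

theorem mult_zero {d : ℕ} (hd : 2 ≤ d) (c : ℂ) {p : ℕ} (hp : 1 ≤ p) : mult (centre d c) 0 p = 0 := by
  obtain ⟨q, rfl⟩ : ∃ q, p = q + 1 := ⟨p - 1, by omega⟩
  have h1 := Pool.Agent.V1186.CN.mu_f d c 0 (q + 1)
  have h2 : Pool.Agent.V1186.CN.mu (Pool.Agent.TH279.MD.f d c) 0 (q + 1) = 0 := by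
    unfold Pool.Agent.V1186.CN.mu
    apply Finset.prod_eq_zero (Finset.mem_range.2 (Nat.succ_pos q))
    rw [Function.iterate_zero, id_eq, Pool.Agent.V1186.CN.deriv_f', zero_pow (by omega), mul_zero]
  rw [h2] at h1
  unfold mult
  rw [map_centre hd]
  show ‖deriv ((Pool.Agent.TH279.MD.f d c)^[q + 1]) 0‖ = 0
  rw [← h1, norm_zero]

theorem uni_sub {d : ℕ} (hd : 2 ≤ d) (n : ℕ) : Unicritical d n ⊆ Attracting d n := by
  rintro a ⟨c, rfl, p, hp, hpn, h0⟩
  refine ⟨?_, p, hpn, 0, ⟨hp, ?_⟩, ?_⟩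
  · show (X ^ d + C c : ℂ[X]).coeff d ≠ 0
    rw [coeff_add, coeff_X_pow, if_pos rfl, coeff_C, if_neg (by omega), add_zero]
    exact one_ne_zero
  · rw [map_centre hd]
    exact h0
  · rw [mult_zero hd c hp]
    norm_num

theorem att_sub (d n : ℕ) : Attracting d n ⊆ NonRepelling d n := by
  rintro a ⟨h0, p, hpn, z, hz, hm⟩
  exact ⟨h0, p, hpn, z, hz, hm.le⟩

/-- the cycles of the polynomials near the unicritical one -/
theorem main {d : ℕ} (hd : 2 ≤ d) {χ : ℝ} {c₀ : ℂ} (h : Lyapunov d χ c₀) :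
    ∃ Λ : ℝ, 1 < Λ ∧ ∀ ε : ℝ, 0 < ε → ε < 1 → ∃ r₀ : ℝ, 0 < r₀ ∧
      ∀ (a : Fin (d + 1) → ℂ) (r : ℝ), 0 < r → r ≤ r₀ → dist a (centre d c₀) ≤ r →
        ∀ (z : ℂ) (p : ℕ), Periodic a z p → (p : ℝ) ≤ (1 - ε) * Real.log (1 / r) / χ →
          Λ ^ p ≤ mult a z p := by
  have hL : Pool.Agent.Y298.CA.Lyap d χ c₀ := h
  have hc2 : ‖c₀‖ ≤ 2 := Pool.Agent.TH279.MD.norm_le_two hd h.2.1
  have hK : (1 : ℝ) ≤ (d + 1) * 4 ^ d := by
    have h1 : (1 : ℝ) ≤ (d : ℝ) + 1 := by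
      have : (0 : ℝ) ≤ d := by positivity
      linarith
    have h2 : (1 : ℝ) ≤ 4 ^ d := one_le_pow₀ (by norm_num)
    exact one_le_mul_of_one_le_of_one_le h1 h2
  obtain ⟨Λ, hΛ, H⟩ := Pool.Agent.V1186.CN.cyclesK hd hL hK
  refine ⟨Λ, hΛ, fun ε hε hε1 => ?_⟩
  obtain ⟨s₀, hs₀, H'⟩ := H ε hε hε1
  have hd1 : (0 : ℝ) < (d : ℝ) + 1 := by positivity
  refine ⟨min s₀ (1 / (12 * (d + 1))), lt_min hs₀ (by positivity), ?_⟩
  intro a r hr hrr har z p hz hp
  have hr1 : r * (d + 1) ≤ 1 / 12 := by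
    have h1 : r ≤ 1 / (12 * (d + 1)) := hrr.trans (min_le_right _ _)
    calc r * (d + 1) ≤ 1 / (12 * (d + 1)) * (d + 1) := by gcongr
      _ = 1 / 12 := by field_simp
  refine H' (map a) r hr (hrr.trans (min_le_left _ _)) (Pool.Agent.V1186.CN.near_pol hd har) z p
    hz.1 ?_ hz.2 (Pool.Agent.V1186.CN.cyc_in (fun w hw =>
      Pool.Agent.V1186.CN.esc_pol hd hc2 har hr1 hw) hz.1 hz.2)
  rw [one_div, Real.log_inv] at hp
  exact hp

theorem far {d : ℕ} (hd : 2 ≤ d) {χ : ℝ} {c₀ : ℂ} (h : Lyapunov d χ c₀)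
    {S : ℕ → Set (Fin (d + 1) → ℂ)} (hS : Between d S) :
    Pool.Agent.V1186.CN.Far χ (centre d c₀) S := by
  intro ε hε hε1
  obtain ⟨Λ, hΛ, H⟩ := main hd h
  obtain ⟨r₀, hr₀, H'⟩ := H ε hε hε1
  refine ⟨r₀, hr₀, fun n a ha s hs hss hds => ?_⟩
  obtain ⟨-, p, hpn, z, hz, hm⟩ := (hS n).2 ha
  by_contra hcon
  rw [not_lt] at hcon
  have hpR : (p : ℝ) ≤ n := by exact_mod_cast hpn
  have h1 := H' a s hs hss hds z p hz (by
    rw [one_div, Real.log_inv]
    linarith)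
  have h2 : 1 < Λ ^ p := one_lt_pow₀ hΛ (by have := hz.1; omega)
  linarith

/-- **The periods of the attracting cycles of the polynomials near typical unicritical
polynomials.** -/
theorem result (d : ℕ) (hd : 2 ≤ d) :
    Between d (Unicritical d) ∧ Between d (Attracting d) ∧ Between d (NonRepelling d) ∧
    (∀ (χ : ℝ) (c₀ : ℂ), Lyapunov d χ c₀ →
      -- (A) all the cycles of small period are uniformly repelling
      (∃ Λ : ℝ, 1 < Λ ∧ ∀ ε : ℝ, 0 < ε → ε < 1 → ∃ r₀ : ℝ, 0 < r₀ ∧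
        ∀ (a : Fin (d + 1) → ℂ) (r : ℝ), 0 < r → r ≤ r₀ → dist a (centre d c₀) ≤ r →
          ∀ (z : ℂ) (p : ℕ), Periodic a z p → (p : ℝ) ≤ (1 - ε) * Real.log (1 / r) / χ →
            Λ ^ p ≤ mult a z p) ∧
      -- (B) distance and smallest period
      ∀ S, Between d S →
        Tendsto (fun n : ℕ => -Real.log (infDist (centre d c₀) (S n)) / n) atTop (𝓝 χ) ∧
        Tendsto (fun r : ℝ => Real.log (1 / r) / first (centre d c₀) S r) (𝓝[>] 0) (𝓝 χ)) ∧
    -- (C) almost every ray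
    (∃ ψ : ℂ → ℂ, IsExteriorMap (N62a1eb23.multibrotSet d) ψ) ∧
    ∀ ψ : ℂ → ℂ, IsExteriorMap (N62a1eb23.multibrotSet d) ψ → ∀ᵐ θ : ℝ,
      ∃ c₀ ∈ frontier (N62a1eb23.multibrotSet d),
        Tendsto (fun r : ℝ => ψ (r * Complex.exp (θ * Complex.I))) (𝓝[>] 1) (𝓝 c₀) ∧
        Lyapunov d (Real.log d) c₀ := by
  refine ⟨fun n => ⟨subset_rfl, (uni_sub hd n).trans (att_sub d n)⟩,
    fun n => ⟨uni_sub hd n, att_sub d n⟩, fun n => ⟨(uni_sub hd n).trans (att_sub d n), subset_rfl⟩,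
    fun χ c₀ h => ⟨main hd h, fun S hS => ?_⟩, ?_, ?_⟩
  · have hL : Pool.Agent.Y298.CA.Lyap d χ c₀ := h
    have hu : ∀ c' : ℂ, dist (centre d c') (centre d c₀) ≤ ‖c' - c₀‖ :=
      fun c' => Pool.Agent.V1186.CN.centre_dist hd c' c₀
    have hcen : ∀ n, centre d '' Pool.Agent.V1186.CN.cen d n ⊆ S n := by
      rintro n _ ⟨c', hc', rfl⟩
      exact (hS n).1 ⟨c', rfl, hc'⟩
    have hF := far hd h hS
    refine ⟨hF.lim hd hL (centre d) hu hcen, ?_⟩
    refine (hF.first_lim hd hL (centre d) hu hcen).congr fun r => ?_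
    rw [one_div, Real.log_inv]
    rfl
  · obtain ⟨β, hβ⟩ := Pool.Agent.H713R2.exists_beta (d := d) hd
    exact ⟨_, Pool.Agent.H713R2.exteriorMap_of_beta hβ⟩
  · obtain ⟨β, hβ⟩ := Pool.Agent.H713R2.exists_beta (d := d) hd
    intro ψ hψ
    filter_upwards [Pool.Agent.Y272.TY.ae_neg' (Pool.Agent.Y272.TY.typical_all hd hβ)] with θ hθ
    obtain ⟨c₀, A, R, h⟩ := hθ
    exact ⟨c₀, h.frontier hd hβ, h.tendsto_psi hβ hψ, Pool.Agent.Y298.CA.lyap_of_typ hd hβ h⟩

end Pool.Agent.Results.MP_28f8a1_an.AttractingPeriods
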