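import Mathlib
import Pool.Prelude.Def_F_c31e40fa
import Pool.Agent.V1186.CN.Pol

/-!
# Periodic critical points and critical relations of the polynomials near typical unicritical
polynomials

In the space `ℂ ^ (d + 1)` of the coefficients (with the maximum norm) we consider the distance from
`z ^ d + c₀` to the following sets:

* `Unicritical n`: the polynomials `z ^ d + c` whose critical point `0` is periodic of a period at most
  `n` (they are hyperbolic);
* `Relation n`: ALL polynomials of degree `d` with a critical point `w` such that, at some time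
  `1 ≤ m ≤ n`, the point `T ^ m (w)` is a critical point or lies outside the disc `|z| ≤ 3`; in
  particular all polynomials with a periodic critical point of a period at most `n`;
* any set between these two.

At all Collet-Eckmann parameters `c₀` the distance is estimated from both sides; if the critical value
`c₀` has a Lyapunov exponent `χ > 0` it is `exp(-(χ + o(1)) n)`, so that the smallest `n` for which the
set meets the ball of radius `r` is `(1/χ + o(1)) log (1/r)`; for almost all parameter rays of the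
Multibrot set the logarithm of the distance is `- n log d` up to `33 √(n log d log log n)`.
-/

set_option autoImplicit false

open MeasureTheory Filter Metric Topology Polynomial

namespace Pool.Agent.Results.MP_28f8a1_an.CriticalRelations

open Pool.Agent.H713R2 (IsExteriorMap)

/-- The polynomial with the given coefficients. -/
noncomputable def poly {d : ℕ} (a : Fin (d + 1) → ℂ) : ℂ[X] :=
  ∑ i : Fin (d + 1), C (a i) * X ^ (i : ℕ)

/-- The coefficients of the polynomial `z ^ d + c₀`. -/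
noncomputable def centre (d : ℕ) (c₀ : ℂ) : Fin (d + 1) → ℂ :=
  fun i => (X ^ d + C c₀ : ℂ[X]).coeff i

/-- The polynomial as a self-map of the plane. -/
def map (T : ℂ[X]) : ℂ → ℂ := fun z : ℂ => T.eval z

/-- The polynomial `z ^ d + c`. -/
def f (d : ℕ) (c : ℂ) : ℂ → ℂ := fun z => z ^ d + c

/-- The unicritical polynomials `z ^ d + c` whose critical point `0` is periodic of a period at
most `n`. -/
def Unicritical (d n : ℕ) : Set (Fin (d + 1) → ℂ) :=
  {a | ∃ c : ℂ, a = centre d c ∧ ∃ p : ℕ, 1 ≤ p ∧ p ≤ n ∧ (f d c)^[p] 0 = 0}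

/-- The polynomials of degree `d` with a critical point whose orbit meets a critical point, or leaves
the disc `|z| ≤ 3`, at a time between `1` and `n`. -/
def Relation (d n : ℕ) : Set (Fin (d + 1) → ℂ) :=
  {a | a (Fin.last d) ≠ 0 ∧ ∃ w : ℂ, (poly a).derivative.eval w = 0 ∧ ∃ m : ℕ, 1 ≤ m ∧ m ≤ n ∧
    (3 < ‖(map (poly a))^[m] w‖ ∨ (poly a).derivative.eval ((map (poly a))^[m] w) = 0)}

/-- The modulus of the derivative of the `n`-th iterate at the critical value. -/
noncomputable def der (d : ℕ) (c : ℂ) (n : ℕ) : ℝ := ‖deriv ((f d c)^[n]) c‖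

/-- The largest of the numbers `der d c j`, `j ≤ n`. -/
noncomputable def maxDer (d : ℕ) (c : ℂ) (n : ℕ) : ℝ :=
  (Finset.range (n + 1)).sup' ⟨0, Finset.mem_range.2 (Nat.succ_pos n)⟩ fun j => der d c j

/-- The critical value of `z ^ d + c`, `c` in the Multibrot set, has the Lyapunov exponent `χ > 0`. -/
def Lyapunov (d : ℕ) (χ : ℝ) (c : ℂ) : Prop :=
  0 < χ ∧ c ∈ N62a1eb23.multibrotSet d ∧
    Tendsto (fun n : ℕ => Real.log (der d c n) / n) atTop (𝓝 χ)

/-- The smallest `n` for which `S n` meets the open ball of radius `r` about `x`. -/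
noncomputable def first {d : ℕ} (x : Fin (d + 1) → ℂ) (S : ℕ → Set (Fin (d + 1) → ℂ)) (r : ℝ) : ℕ :=
  sInf {n : ℕ | ∃ a ∈ S n, dist a x < r}

/-- `√(n log d log log n)` -/
noncomputable def lil (d n : ℕ) : ℝ := √(n * Real.log d * Real.log (Real.log n))

/-- `S n` lies between `Unicritical d n` and `Relation d n`, for all `n`. -/
def Between (d : ℕ) (S : ℕ → Set (Fin (d + 1) → ℂ)) : Prop :=
  ∀ n : ℕ, Unicritical d n ⊆ S n ∧ S n ⊆ Relation d n

theorem poly_eq {d : ℕ} (a : Fin (d + 1) → ℂ) : poly a = Pool.Agent.V1186.CN.poly a := rfl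

theorem uni_sub (d : ℕ) (hd : 2 ≤ d) (n : ℕ) : Unicritical d n ⊆ Relation d n := by
  rintro a ⟨c, rfl, p, hp1, hpn, hp0⟩
  have h1 : poly (centre d c) = X ^ d + C c := Pool.Agent.V1186.CN.poly_centre (by omega) c
  have h2 : (poly (centre d c)).derivative.eval 0 = 0 := by
    rw [h1, derivative_add, derivative_C, add_zero, derivative_X_pow]
    simp
    omega
  refine ⟨?_, 0, h2, p, hp1, hpn, Or.inr ?_⟩
  · show (X ^ d + C c : ℂ[X]).coeff d ≠ 0
    rw [coeff_add, coeff_X_pow, if_pos rfl, coeff_C, if_neg (by omega), add_zero]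
    exact one_ne_zero
  · have h3 : map (poly (centre d c)) = f d c := by
      funext z
      show (poly (centre d c)).eval z = z ^ d + c
      rw [h1]
      simp
    rw [h3, hp0]
    exact h2

/-- the distances lie between the two bounds -/
theorem btw {d : ℕ} (hd : 2 ≤ d) (C₁ lam : ℝ) : ∃ K : ℝ, 1 ≤ K ∧ ∀ c₀ : ℂ,
    Pool.Agent.Y298.SH.CD.CEp d C₁ lam c₀ → ∀ S, Between d S →
      Pool.Agent.V1186.CN.Btw d c₀ K fun n => infDist (centre d c₀) (S n) := by
  set κ := Pool.Agent.V1186.CN.kpol d C₁ lam with hκ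
  refine ⟨max 1 (1 / κ), le_max_left _ _, fun c₀ h S hS => ⟨le_max_left _ _, fun n => ?_,
    fun n => ?_⟩⟩
  · refine Pool.Agent.V1186.CN.infDist_le_gap hd (centre d)
      (fun c' => Pool.Agent.V1186.CN.centre_dist hd c' c₀) (by omega) ?_
    rintro _ ⟨c', hc', rfl⟩
    exact (hS _).1 ⟨c', rfl, hc'⟩
  · have hκ0 : 0 < κ := Pool.Agent.V1186.CN.kpol_pos hd h.C1 h.lam1
    have hsum := Pool.Agent.V1186.CN.sum_pos' h n
    set T := ∑ j ∈ Finset.range (n + 1),
      Pool.Agent.Y298.SH.CD.Pd d c₀ j / ‖Pool.Agent.Y298.SH.CD.zz d c₀ j‖ with hT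
    have hne : (S (n + 1)).Nonempty := by
      obtain ⟨c', hc'⟩ : (Pool.Agent.V1186.CN.cen d (n + 1)).Nonempty :=
        ⟨0, Pool.Agent.V1186.CN.cen_zero hd (by omega)⟩
      exact ⟨centre d c', (hS _).1 ⟨c', rfl, hc'⟩⟩
    have key : κ ≤ infDist (centre d c₀) (S (n + 1)) * T := by
      by_contra hcon
      push Not at hcon
      rw [← lt_div_iff₀ hsum, infDist_lt_iff hne] at hcon
      obtain ⟨a, ha, hdist⟩ := hcon
      rw [lt_div_iff₀ hsum, dist_comm] at hdist
      obtain ⟨-, w, hw, m, hm1, hmn, hor⟩ := (hS _).2 ha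
      obtain ⟨-, H⟩ := Pool.Agent.V1186.CN.pol_no h (a := a) (n := n) hdist.le hw
      obtain ⟨j, rfl⟩ : ∃ j, m = j + 1 := ⟨m - 1, by omega⟩
      obtain ⟨h1, h2⟩ := H j (by omega)
      rcases hor with h3 | h3
      · exact absurd h1 (not_le.2 h3)
      · exact h2 h3
    have h1 : 1 / κ ≤ max 1 (1 / κ) := le_max_right _ _
    have h2 : 0 ≤ infDist (centre d c₀) (S (n + 1)) * T := mul_nonneg infDist_nonneg hsum.le
    calc (1 : ℝ) = 1 / κ * κ := by field_simp
      _ ≤ 1 / κ * (infDist (centre d c₀) (S (n + 1)) * T) := by gcongr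
      _ ≤ _ := mul_le_mul_of_nonneg_right h1 h2

/-- The distance from `z ^ d + c₀` to the polynomials with a critical relation of length at most `n`:
at all Collet-Eckmann parameters, at expanding ones, at parameters with a Lyapunov exponent, and for
almost every parameter ray. -/
theorem result (d : ℕ) (hd : 2 ≤ d) :
    Between d (Unicritical d) ∧ Between d (Relation d) ∧
    -- (A) Collet-Eckmann parameters
    (∀ C₁ lam : ℝ, 1 ≤ C₁ → 1 < lam → ∃ K : ℝ, 1 ≤ K ∧ ∀ c₀ ∈ N62a1eb23.multibrotSet d,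
      (∀ n : ℕ, lam ^ n ≤ C₁ * der d c₀ n) → ∀ S, Between d S → ∀ n : ℕ,
        infDist (centre d c₀) (S (n + 1)) * maxDer d c₀ n ≤ K ∧
        1 ≤ K * (infDist (centre d c₀) (S (n + 1)) *
          ∑ j ∈ Finset.range (n + 1), der d c₀ j / ‖(f d c₀)^[j] c₀‖)) ∧
    -- (B) expanding critical orbits
    (∀ N : ℕ, ∃ K : ℝ, 1 ≤ K ∧ ∀ c₀ ∈ N62a1eb23.multibrotSet d,
      (∀ j : ℕ, 2 ≤ ‖deriv ((f d c₀)^[N]) ((f d c₀)^[j] c₀)‖) → ∀ S, Between d S → ∀ n : ℕ,
        1 / K ≤ infDist (centre d c₀) (S (n + 1)) * der d c₀ n ∧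
          infDist (centre d c₀) (S (n + 1)) * der d c₀ n ≤ K) ∧
    -- (C) Lyapunov exponents
    (∀ (χ : ℝ) (c₀ : ℂ), Lyapunov d χ c₀ → ∀ S, Between d S →
      Tendsto (fun n : ℕ => -Real.log (infDist (centre d c₀) (S n)) / n) atTop (𝓝 χ) ∧
      Tendsto (fun r : ℝ => Real.log (1 / r) / first (centre d c₀) S r) (𝓝[>] 0) (𝓝 χ)) ∧
    -- (D) almost every ray
    (∃ ψ : ℂ → ℂ, IsExteriorMap (N62a1eb23.multibrotSet d) ψ) ∧
    ∀ ψ : ℂ → ℂ, IsExteriorMap (N62a1eb23.multibrotSet d) ψ → ∀ᵐ θ : ℝ,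
      ∃ c₀ ∈ frontier (N62a1eb23.multibrotSet d),
        Tendsto (fun r : ℝ => ψ (r * Complex.exp (θ * Complex.I))) (𝓝[>] 1) (𝓝 c₀) ∧
        Lyapunov d (Real.log d) c₀ ∧ ∀ S, Between d S →
          (∃ B : ℝ, ∀ n : ℕ, |Real.log (infDist (centre d c₀) (S (n + 1))) +
            Real.log (maxDer d c₀ n)| ≤ B * Real.log (n + 2)) ∧
          ∀ᶠ n : ℕ in atTop, |Real.log (infDist (centre d c₀) (S n)) + n * Real.log d| ≤
            33 * lil d n := by
  refine ⟨fun n => ⟨subset_rfl, uni_sub d hd n⟩, fun n => ⟨uni_sub d hd n, subset_rfl⟩, ?_, ?_, ?_,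
    ?_, ?_⟩
  · intro C₁ lam hC hl
    obtain ⟨K, hK, H⟩ := btw hd C₁ lam
    obtain ⟨K', hK', H'⟩ := Pool.Agent.V1186.CN.two_sided d C₁ lam
    refine ⟨max K K', le_max_of_le_left hK, fun c₀ hM hce S hS n => ?_⟩
    have hc := Pool.Agent.Y298.SH.CD.cep_of_mem hd hC hl hM hce
    have b := H c₀ hc S hS
    have hD : 0 ≤ infDist (centre d c₀) (S (n + 1)) := infDist_nonneg
    refine ⟨?_, ?_⟩
    · obtain ⟨j, hj, hmx⟩ := Pool.Agent.V1186.CN.mx_eq (d := d) (c := c₀) n
      have h1 := (H' c₀ hc n).1 j hj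
      have h2 := b.up n
      have h3 := Pool.Agent.Y298.SH.CD.Pd_nonneg d c₀ j
      show infDist (centre d c₀) (S (n + 1)) * Pool.Agent.V1186.CN.mx d c₀ n ≤ _
      rw [hmx]
      calc infDist (centre d c₀) (S (n + 1)) * Pool.Agent.Y298.SH.CD.Pd d c₀ j ≤
          Pool.Agent.V1186.CN.gap d c₀ (n + 1) * Pool.Agent.Y298.SH.CD.Pd d c₀ j :=
            mul_le_mul_of_nonneg_right h2 h3
        _ ≤ K' := h1
        _ ≤ _ := le_max_right _ _
    · have h1 := b.low n
      have h2 := Pool.Agent.V1186.CN.sum_pos' hc n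
      refine h1.trans (mul_le_mul_of_nonneg_right (le_max_left _ _) (mul_nonneg hD h2.le))
  · intro N
    obtain ⟨G, mu, Q, hG, hmu, hQ, HE⟩ := Pool.Agent.V1186.CN.exp_sum hd N
    obtain ⟨K, hK, H⟩ := btw hd G mu
    obtain ⟨K', hK', H'⟩ := Pool.Agent.V1186.CN.two_sided d G mu
    refine ⟨max (K * Q) K', le_max_of_le_right hK', fun c₀ hM hexp S hS n => ?_⟩
    have hbd : ∀ j, ‖Pool.Agent.Y298.SH.CD.zz d c₀ j‖ ≤ 2 := by
      intro j
      have h1 := (Pool.Agent.H712R2.mem_multibrot_iff hd c₀).mp hM (j + 1)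
      rwa [← Pool.Agent.V1186.CN.zz_eq_P hd] at h1
    obtain ⟨hc, hsum⟩ := HE c₀ hbd hexp
    have b := H c₀ hc S hS
    have hD : 0 ≤ infDist (centre d c₀) (S (n + 1)) := infDist_nonneg
    have hP : 0 < der d c₀ n := hc.Pd_pos n
    refine ⟨?_, ?_⟩
    · have h1 := b.low n
      have h2 := hsum n
      have h3 : 1 ≤ max (K * Q) K' * (infDist (centre d c₀) (S (n + 1)) * der d c₀ n) := by
        calc (1 : ℝ) ≤ K * (infDist (centre d c₀) (S (n + 1)) * (Q * der d c₀ n)) := by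
              refine h1.trans (mul_le_mul_of_nonneg_left
                (mul_le_mul_of_nonneg_left h2 hD) (by linarith))
          _ = K * Q * (infDist (centre d c₀) (S (n + 1)) * der d c₀ n) := by ring
          _ ≤ _ := mul_le_mul_of_nonneg_right (le_max_left _ _) (by positivity)
      have h4 : 0 < max (K * Q) K' := lt_max_of_lt_right (by linarith)
      rw [div_le_iff₀ h4, mul_comm]
      exact h3
    · have h1 := (H' c₀ hc n).1 n le_rfl
      calc infDist (centre d c₀) (S (n + 1)) * der d c₀ n ≤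
          Pool.Agent.V1186.CN.gap d c₀ (n + 1) * der d c₀ n :=
            mul_le_mul_of_nonneg_right (b.up n) hP.le
        _ ≤ K' := h1
        _ ≤ _ := le_max_right _ _
  · intro χ c₀ h S hS
    have hL : Pool.Agent.Y298.CA.Lyap d χ c₀ := h
    obtain ⟨⟨C₁, lam, hc⟩, -⟩ := Pool.Agent.Y674.CA.lya d χ c₀ hd hL
    obtain ⟨K, hK, H⟩ := btw hd C₁ lam
    have b := H c₀ hc S hS
    refine ⟨b.lyap hd hL, ?_⟩
    have h0 : S 0 = ∅ := by
      rw [Set.eq_empty_iff_forall_notMem]
      intro a ha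
      obtain ⟨-, w, -, m, hm1, hm0, -⟩ := (hS 0).2 ha
      omega
    have h1 := Pool.Agent.V1186.CN.first_lyap hd hL (centre d)
      (fun c' => Pool.Agent.V1186.CN.centre_dist hd c' c₀) (fun n => by
        rintro _ ⟨c', hc', rfl⟩
        exact (hS _).1 ⟨c', rfl, hc'⟩) h0 b
    refine h1.congr fun r => ?_
    rw [one_div, Real.log_inv]
    rfl
  · obtain ⟨β, hβ⟩ := Pool.Agent.H713R2.exists_beta (d := d) hd
    exact ⟨_, Pool.Agent.H713R2.exteriorMap_of_beta hβ⟩
  · obtain ⟨β, hβ⟩ := Pool.Agent.H713R2.exists_beta (d := d) hd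
    intro ψ hψ
    filter_upwards [Pool.Agent.Y272.TY.ae_neg' (Pool.Agent.Y272.TY.typical_all hd hβ)] with θ hθ
    obtain ⟨c₀, A, R, h⟩ := hθ
    refine ⟨c₀, h.frontier hd hβ, h.tendsto_psi hβ hψ, Pool.Agent.Y298.CA.lyap_of_typ hd hβ h,
      fun S hS => ?_⟩
    obtain ⟨C₁, hc⟩ := Pool.Agent.V1186.CN.cep_of_typ hd hβ h
    obtain ⟨K, hK, H⟩ := btw hd C₁ (3 / 2)
    have b := H c₀ hc S hS
    obtain ⟨B, -, hB⟩ := b.typ hd hβ h
    exact ⟨⟨B, hB⟩, b.lil hd hβ h⟩

end Pool.Agent.Results.MP_28f8a1_an.CriticalRelations
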