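import Mathlib
import Pool.Prelude.Def_F_c31e40fa
import Pool.Agent.Y272.GA.Brg
import Pool.Agent.Y298.EX.All

/-!
# The exact local size of the connectedness locus and of the hyperbolic maps in the space of all
polynomials, at typical unicritical polynomials

Let `d ≥ 2`, and let `c₀` be a parameter of the Multibrot set `M_d` whose critical value has a
Lyapunov exponent (this is so for harmonic-almost every boundary point of `M_d`; `c₀ ≠ -2` if
`d = 2`). In the space `ℂ ^ (d + 1)` of the coefficients we consider the polynomials near `z ^ d + c₀`: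

* `NonShift`: some critical point does not escape;
* `Conn`: no critical point escapes (the connectedness locus);
* `OneSink`: there is one sink which attracts all critical points (so the map is hyperbolic).

For each of these sets, and for all sets between `OneSink` and `NonShift`, the volume of the part at
distance at most `r` from `z ^ d + c₀` is `r ^ (2 (d + 1) + 2 / (d - 1) + o(1))`, and the inradius of
this part is `r ^ (d / (d - 1) + o(1))`.
-/

set_option autoImplicit false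

open MeasureTheory Filter Metric Topology Polynomial

namespace Pool.Agent.Results.MP_28f8a1_an.ExactVolumeScaling

open Pool.Agent.H713R2 (IsExteriorMap)

/-- The polynomial with the given coefficients. -/
noncomputable def poly {d : ℕ} (a : Fin (d + 1) → ℂ) : ℂ[X] :=
  ∑ i : Fin (d + 1), C (a i) * X ^ (i : ℕ)

/-- The coefficients of the polynomial `z ^ d + c₀`. -/
noncomputable def centre (d : ℕ) (c₀ : ℂ) : Fin (d + 1) → ℂ :=
  fun i => (X ^ d + C c₀ : ℂ[X]).coeff i

/-- The polynomial as a self-map of the plane. -/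
def map (T : ℂ[X]) : ℂ → ℂ := fun z : ℂ => T.eval z

/-- The orbit of `z` escapes to infinity. -/
def Escapes (T : ℂ[X]) (z : ℂ) : Prop :=
  Tendsto (fun k : ℕ => ‖(map T)^[k] z‖) atTop atTop

/-- The polynomials of degree `d` with a critical point which does not escape. -/
def NonShift (d : ℕ) : Set (Fin (d + 1) → ℂ) :=
  {a | a (Fin.last d) ≠ 0 ∧ ∃ c : ℂ, (poly a).derivative.eval c = 0 ∧ ¬ Escapes (poly a) c}

/-- The connectedness locus: the polynomials of degree `d` without escaping critical points. -/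
def Conn (d : ℕ) : Set (Fin (d + 1) → ℂ) :=
  {a | a (Fin.last d) ≠ 0 ∧ ∀ c : ℂ, (poly a).derivative.eval c = 0 → ¬ Escapes (poly a) c}

/-- The polynomials of degree `d` with one sink which attracts all critical points. -/
def OneSink (d : ℕ) : Set (Fin (d + 1) → ℂ) :=
  {a | a (Fin.last d) ≠ 0 ∧ ∃ (n : ℕ) (x : ℂ), 0 < n ∧ (map (poly a))^[n] x = x ∧
    ‖deriv ((map (poly a))^[n]) x‖ < 1 ∧ ∀ c : ℂ, (poly a).derivative.eval c = 0 →
      Tendsto (fun k : ℕ => (map (poly a))^[n * k] c) atTop (𝓝 x)}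

/-- `F r = r ^ (a + o(1))` as `r → 0`. -/
def Order (F : ℝ → ℝ) (a : ℝ) : Prop :=
  Tendsto (fun r : ℝ => Real.log (F r) / Real.log r) (𝓝[>] 0) (𝓝 a)

/-- The inradius of a set. -/
noncomputable def inradius {d : ℕ} (S : Set (Fin (d + 1) → ℂ)) : ℝ :=
  sSup {ρ : ℝ | 0 ≤ ρ ∧ ∃ b : Fin (d + 1) → ℂ, ball b ρ ⊆ S}

/-- The exact order of the volume and of the inradius of `S` near `z ^ d + c₀`. -/
def ScalesAt (d : ℕ) (c₀ : ℂ) (S : Set (Fin (d + 1) → ℂ)) : Prop :=
  Order (fun r => (volume (S ∩ closedBall (centre d c₀) r)).toReal)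
    (2 * (d + 1) + 2 / (d - 1)) ∧
  Order (fun r => (volume (S ∩ closedBall (centre d c₀) r)).toReal /
    (volume (closedBall (centre d c₀) r)).toReal) (2 / (d - 1)) ∧
  Order (fun r => inradius (S ∩ closedBall (centre d c₀) r)) (d / (d - 1))

/-- The polynomial `z ^ d + c`. -/
def f (d : ℕ) (c : ℂ) : ℂ → ℂ := fun z => z ^ d + c

/-- `c₀` lies in the Multibrot set (and is not `-2` if `d = 2`), and the critical value `c₀` has the
Lyapunov exponent `χ > 0`. -/
def Lyapunov (d : ℕ) (χ : ℝ) (c₀ : ℂ) : Prop :=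
  0 < χ ∧ c₀ ∈ N62a1eb23.multibrotSet d ∧ (d = 2 → c₀ ≠ -2) ∧
    Tendsto (fun n : ℕ => Real.log ‖deriv ((f d c₀)^[n]) c₀‖ / n) atTop (𝓝 χ)

theorem natDegree_poly {d : ℕ} (a : Fin (d + 1) → ℂ) : (poly a).natDegree ≤ d := by
  unfold poly
  refine natDegree_sum_le_of_forall_le _ _ fun i _ => ?_
  exact (natDegree_C_mul_X_pow_le _ _).trans (Nat.lt_succ_iff.mp i.2)

theorem coeff_poly {d : ℕ} (a : Fin (d + 1) → ℂ) (i : Fin (d + 1)) :
    (poly a).coeff i = a i := by
  unfold poly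
  rw [finsetSum_coeff, Finset.sum_eq_single i]
  · rw [coeff_C_mul_X_pow, if_pos rfl]
  · intro j _ hj
    rw [coeff_C_mul_X_pow, if_neg]
    intro h
    exact hj (Fin.ext h.symm)
  · intro h
    exact absurd (Finset.mem_univ _) h

theorem natDegree_eq {d : ℕ} {a : Fin (d + 1) → ℂ} (h : a (Fin.last d) ≠ 0) :
    (poly a).natDegree = d := by
  refine le_antisymm (natDegree_poly a) (le_natDegree_of_ne_zero ?_)
  have h1 := coeff_poly a (Fin.last d)
  rw [Fin.val_last] at h1
  rwa [h1]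

theorem oneSink_sub {d : ℕ} : OneSink d ⊆ Conn d := by
  rintro a ⟨h0, n, x, hn, -, -, h⟩
  refine ⟨h0, fun c hc hcon => ?_⟩
  have h1 := (h c hc).norm
  have h2 : Tendsto (fun k : ℕ => n * k) atTop atTop := tendsto_id.const_mul_atTop' hn
  have h3 := hcon.comp h2
  exact not_tendsto_nhds_of_tendsto_atTop h3 _ h1

theorem conn_sub {d : ℕ} (hd : 2 ≤ d) : Conn d ⊆ NonShift d := by
  rintro a ⟨h0, h⟩
  have h1 : (poly a).derivative.natDegree = d - 1 := by
    rw [natDegree_derivative, natDegree_eq h0]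
  have h2 : (poly a).derivative.degree ≠ 0 := by
    intro h3
    have h4 : (poly a).derivative.natDegree = 0 := natDegree_eq_of_degree_eq_some (by simpa using h3)
    omega
  obtain ⟨c, hc⟩ := IsAlgClosed.exists_root _ h2
  exact ⟨h0, c, hc, h c hc⟩

/-- near `z ^ d + c₀` the degree is `d` -/
theorem last_ne {d : ℕ} (hd : 2 ≤ d) {c₀ : ℂ} {a : Fin (d + 1) → ℂ} {r : ℝ} (hr : r < 1)
    (ha : a ∈ closedBall (centre d c₀) r) : a (Fin.last d) ≠ 0 := by
  intro h0
  rw [mem_closedBall, dist_eq_norm] at ha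
  have h1 := (norm_le_pi_norm (a - centre d c₀) (Fin.last d)).trans ha
  rw [Pi.sub_apply, h0] at h1
  unfold centre at h1
  rw [Fin.val_last, coeff_add, coeff_X_pow, if_pos rfl, coeff_C, if_neg (by omega), add_zero,
    zero_sub, norm_neg, norm_one] at h1
  linarith

theorem lt_one_ev : ∀ᶠ r : ℝ in 𝓝[>] 0, r < 1 :=
  mem_nhdsWithin_of_mem_nhds (gt_mem_nhds (by norm_num : (0 : ℝ) < 1))

theorem lt_ev {b : ℝ} (hb : 0 < b) : ∀ᶠ r : ℝ in 𝓝[>] 0, r < b :=
  mem_nhdsWithin_of_mem_nhds (gt_mem_nhds hb)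

/-- absorbing constants -/
theorem absorb {K σ E ε : ℝ} (hε : 0 < ε) (hσ : E - ε / 2 ≤ σ) :
    0 ≤ K → ∀ᶠ r : ℝ in 𝓝[>] 0, K * r ^ σ ≤ r ^ (E - ε) := by
  intro hK
  have hmem0 : ∀ᶠ r : ℝ in 𝓝[>] 0, 0 < r := self_mem_nhdsWithin
  filter_upwards [hmem0, lt_one_ev, Pool.Agent.Y298.CA.ev_const (C := K) (a := ε / 2)
    (by positivity)] with r hr0 hr1 hr2
  calc K * r ^ σ ≤ K * r ^ (E - ε / 2) := by
        gcongr K * ?_
        exact Real.rpow_le_rpow_of_exponent_ge hr0 hr1.le hσ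
    _ = (K * r ^ (ε / 2)) * r ^ (E - ε) := by
        rw [mul_assoc, ← Real.rpow_add hr0]
        congr 2
        ring
    _ ≤ 1 * r ^ (E - ε) := by gcongr
    _ = _ := one_mul _

/-- the two boxes -/
theorem ball_eq {d : ℕ} {c₀ : ℂ} {r : ℝ} (hr : 0 ≤ r) :
    closedBall (centre d c₀) r = Pool.Agent.Y272.GA.Bx d c₀ r := by
  ext a
  rw [mem_closedBall, dist_eq_norm, pi_norm_le_iff_of_nonneg hr]
  rfl

/-- translation of the coordinates -/
theorem preimage_ball {d : ℕ} {c₀ : ℂ} {r : ℝ} (hr : 0 ≤ r) :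
    closedBall (centre d c₀) r =
      (fun a => a + -Pool.Agent.Y272.GA.xx d) ⁻¹' closedBall (Pool.Agent.Y272.GA.ee d c₀) r := by
  rw [ball_eq hr]
  ext a
  rw [Set.mem_preimage, Pool.Agent.Y272.GA.mem_Bx hr, ← sub_eq_add_neg]

/-- the sets of hyperbolic maps -/
theorem preimage_OS {d : ℕ} (hd : 2 ≤ d) {c₀ : ℂ} {r : ℝ} (hr : 0 ≤ r) (hr1 : r < 1) :
    (fun a => a + -Pool.Agent.Y272.GA.xx d) ⁻¹'
      (Pool.Agent.Y298.EX.OS d ∩ closedBall (Pool.Agent.Y272.GA.ee d c₀) r) ⊆
      OneSink d ∩ closedBall (centre d c₀) r := by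
  rintro a ⟨h1, h2⟩
  have h3 : a ∈ closedBall (centre d c₀) r := by
    rw [preimage_ball hr]
    exact h2
  refine ⟨⟨last_ne hd hr1 h3, ?_⟩, h3⟩
  change a + -Pool.Agent.Y272.GA.xx d ∈ _ at h1
  rw [← sub_eq_add_neg] at h1
  obtain ⟨n, x, h4, h5, h6, h7⟩ := h1
  have h8 : poly a = Pool.Agent.Y272.GA.pol d (a - Pool.Agent.Y272.GA.xx d) :=
    Pool.Agent.Y272.GA.poly_eq a
  have h9 : map (poly a) = Pool.Agent.Y272.GA.FF d (a - Pool.Agent.Y272.GA.xx d) := by
    funext z
    unfold map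
    rw [h8, Pool.Agent.Y272.GA.pol_eval]
  refine ⟨n, x, h4, ?_, ?_, ?_⟩
  · rw [h9]; exact h5
  · rw [h9]; exact h6
  · intro c hc
    rw [h9]
    apply h7
    rw [h8, Pool.Agent.Y272.GA.pol_derivative_eval] at hc
    exact hc

theorem vol_box {d : ℕ} (x : Fin (d + 1) → ℂ) {r : ℝ} (hr : 0 < r) :
    volume (closedBall x r) = ENNReal.ofReal ((Real.pi * r ^ 2) ^ (d + 1)) := by
  rw [closedBall_pi x hr.le, volume_pi_pi]
  simp only [Pool.Agent.Y298.CA.vol_cb' _ hr.le]
  rw [Finset.prod_const, Finset.card_univ, Fintype.card_fin, ENNReal.ofReal_pow (by positivity)]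

/-- **The scaling.** -/
theorem scaling {d : ℕ} (hd : 2 ≤ d) {χ : ℝ} {c₀ : ℂ} (h : Lyapunov d χ c₀)
    {S : Set (Fin (d + 1) → ℂ)} (h₁ : OneSink d ⊆ S) (h₂ : S ⊆ NonShift d) : ScalesAt d c₀ S := by
  have hdR : (2 : ℝ) ≤ d := by exact_mod_cast hd
  have hd1 : 0 < (d : ℝ) - 1 := by linarith
  have hL : Pool.Agent.Y298.CA.Lyap d χ c₀ := ⟨h.1, h.2.1, h.2.2.2⟩
  have hc2 : ‖c₀‖ < 2 := Pool.Agent.Y272.GA.norm_lt_two hd h.2.1 h.2.2.1
  have hmem0 : ∀ᶠ r : ℝ in 𝓝[>] 0, 0 < r := self_mem_nhdsWithin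
  have hfin : ∀ r : ℝ, volume (S ∩ closedBall (centre d c₀) r) ≠ ⊤ := fun r =>
    ne_top_of_le_ne_top measure_closedBall_lt_top.ne (measure_mono Set.inter_subset_right)
  have hnot : ∀ a ∈ NonShift d, ¬ Pool.Agent.Y272.GA.SL (poly a) := by
    rintro a ⟨-, c, hc, hce⟩ hSL
    exact hce (hSL c hc)
  -- upper bound of the proportion
  have hup : ∀ ε : ℝ, 0 < ε → ∀ᶠ r : ℝ in 𝓝[>] 0,
      (volume (S ∩ closedBall (centre d c₀) r)).toReal ≤
        r ^ (2 / ((d : ℝ) - 1) - ε) * (volume (closedBall (centre d c₀) r)).toReal := by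
    intro ε hε
    have hE0 : 0 ≤ max 0 (2 / ((d : ℝ) - 1) - ε / 2) := le_max_left _ _
    have hE1 : 2 + max 0 (2 / ((d : ℝ) - 1) - ε / 2) < 2 * d / (d - 1) := by
      have e1 : 2 * (d : ℝ) / (d - 1) = 2 + 2 / (d - 1) := by
        field_simp
        ring
      rw [e1]
      have : max 0 (2 / ((d : ℝ) - 1) - ε / 2) < 2 / (d - 1) :=
        max_lt (by positivity) (by linarith)
      linarith
    obtain ⟨K, r₀, hK, hr₀, H⟩ := Pool.Agent.Y272.GA.st_vol hd hc2
      (Pool.Agent.Y272.GA.ar_lyap hd hL (by linarith) hE1)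
    filter_upwards [hmem0, lt_ev hr₀, absorb (K := K) (E := 2 / ((d : ℝ) - 1)) hε
      (le_max_right 0 _) hK.le] with r hr0 hr1 hr2
    have h1 : volume (S ∩ closedBall (centre d c₀) r) ≤
        ENNReal.ofReal (K * r ^ max 0 (2 / ((d : ℝ) - 1) - ε / 2)) *
          volume (closedBall (centre d c₀) r) := by
      rw [ball_eq hr0.le]
      refine le_trans (measure_mono ?_) (H r hr0 hr1.le)
      rintro a ⟨ha, ha'⟩
      exact ⟨ha', hnot a (h₂ ha)⟩
    have h3 := ENNReal.toReal_mono (ENNReal.mul_ne_top ENNReal.ofReal_ne_top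
      measure_closedBall_lt_top.ne) h1
    rw [ENNReal.toReal_mul, ENNReal.toReal_ofReal (by positivity)] at h3
    refine h3.trans ?_
    gcongr
  -- lower bound of the volume and of the inradius
  have hlow : ∀ ε : ℝ, 0 < ε → ∀ᶠ r : ℝ in 𝓝[>] 0,
      r ^ (2 * ((d : ℝ) + 1) + 2 / ((d : ℝ) - 1) + ε) ≤
        (volume (S ∩ closedBall (centre d c₀) r)).toReal ∧
      ∃ b : Fin (d + 1) → ℂ, ball b (r ^ ((d : ℝ) / ((d : ℝ) - 1) + ε)) ⊆
        S ∩ closedBall (centre d c₀) r := by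
    intro ε hε
    filter_upwards [Pool.Agent.Y298.EX.low_fin_all hd hL hε, hmem0, lt_one_ev]
      with r ⟨h1, b, h2⟩ hr0 hr1
    have hsub := (preimage_OS hd (c₀ := c₀) hr0.le hr1).trans
      (Set.inter_subset_inter_left _ h₁)
    refine ⟨?_, b + Pool.Agent.Y272.GA.xx d, ?_⟩
    · have h3 : ENNReal.ofReal (r ^ (2 * ((d : ℝ) + 1) + 2 / ((d : ℝ) - 1) + ε)) ≤
          volume (S ∩ closedBall (centre d c₀) r) := by
        refine h1.trans ?_
        rw [← measure_preimage_add_right volume (-Pool.Agent.Y272.GA.xx d)]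
        exact measure_mono hsub
      have h4 := ENNReal.toReal_mono (hfin r) h3
      rwa [ENNReal.toReal_ofReal (by positivity)] at h4
    · intro a ha
      apply hsub
      show a + -Pool.Agent.Y272.GA.xx d ∈
        Pool.Agent.Y298.EX.OS d ∩ closedBall (Pool.Agent.Y272.GA.ee d c₀) r
      apply h2
      rw [mem_ball, dist_eq_norm] at ha ⊢
      convert ha using 2
      abel
  have hV : ∀ r : ℝ, 0 < r → (volume (closedBall (centre d c₀) r)).toReal =
      Real.pi ^ (d + 1) * r ^ (2 * ((d : ℝ) + 1)) := by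
    intro r hr
    rw [vol_box _ hr, ENNReal.toReal_ofReal (by positivity), mul_pow, ← pow_mul,
      ← Real.rpow_natCast r]
    congr 2
    push_cast
    ring
  have hpi : (1 : ℝ) ≤ Real.pi ^ (d + 1) :=
    one_le_pow₀ (by linarith [Real.pi_gt_three])
  refine ⟨?_, ?_, ?_⟩
  · refine Pool.Agent.Y298.CA.lim_of (fun ε hε => (hlow ε hε).mono fun r hr => hr.1) ?_
    intro ε hε
    filter_upwards [hup (ε / 2) (by positivity), hmem0, lt_one_ev,
      absorb (K := Real.pi ^ (d + 1)) (E := 2 * ((d : ℝ) + 1) + 2 / ((d : ℝ) - 1)) hε le_rfl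
        (by positivity)] with r hr hr0 hr1 hr2
    refine hr.trans (le_trans (le_of_eq ?_) hr2)
    rw [hV r hr0, mul_left_comm, ← Real.rpow_add hr0]
    congr 2
    ring
  · refine Pool.Agent.Y298.CA.lim_of ?_ ?_
    · intro ε hε
      filter_upwards [hlow (ε / 2) (by positivity), hmem0,
        Pool.Agent.Y298.CA.ev_const (C := Real.pi ^ (d + 1)) (by positivity : 0 < ε / 2)]
        with r ⟨hr, _⟩ hr0 hr2
      rw [hV r hr0, le_div_iff₀ (by positivity)]
      refine le_trans ?_ hr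
      calc r ^ (2 / ((d : ℝ) - 1) + ε) * (Real.pi ^ (d + 1) * r ^ (2 * ((d : ℝ) + 1)))
          = (Real.pi ^ (d + 1) * r ^ (ε / 2)) *
            r ^ (2 * ((d : ℝ) + 1) + 2 / ((d : ℝ) - 1) + ε / 2) := by
            rw [mul_left_comm, ← Real.rpow_add hr0, mul_assoc, ← Real.rpow_add hr0]
            congr 2
            ring
        _ ≤ 1 * r ^ (2 * ((d : ℝ) + 1) + 2 / ((d : ℝ) - 1) + ε / 2) := by gcongr
        _ = _ := one_mul _
    · intro ε hε
      filter_upwards [hup ε hε, hmem0] with r hr hr0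
      have hV0 : 0 < (volume (closedBall (centre d c₀) r)).toReal := by
        rw [hV r hr0]
        positivity
      rwa [div_le_iff₀ hV0]
  · have hbdd : ∀ r : ℝ, 0 < r → BddAbove {ρ : ℝ | 0 ≤ ρ ∧ ∃ b : Fin (d + 1) → ℂ,
        ball b ρ ⊆ S ∩ closedBall (centre d c₀) r} := by
      intro r hr
      refine ⟨2 * r, ?_⟩
      rintro ρ ⟨hρ0, b, hb⟩
      rcases hρ0.eq_or_lt with h0 | h0
      · rw [← h0]; positivity
      · by_contra hcon
        rw [not_le] at hcon
        have hb0 := (hb (mem_ball_self h0)).2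
        rw [mem_closedBall, dist_eq_norm] at hb0
        have hs : ‖(Pi.single 0 (((r + ρ / 2 : ℝ)) : ℂ) : Fin (d + 1) → ℂ)‖ = r + ρ / 2 := by
          rw [Pi.norm_single, Complex.norm_real, Real.norm_of_nonneg (by positivity)]
        have h1 : b + Pi.single 0 (((r + ρ / 2 : ℝ)) : ℂ) ∈ ball b ρ := by
          rw [mem_ball, dist_eq_norm, add_sub_cancel_left, hs]
          linarith
        have h2 : b - Pi.single 0 (((r + ρ / 2 : ℝ)) : ℂ) ∈ ball b ρ := by
          rw [mem_ball, dist_eq_norm, sub_sub_cancel_left, norm_neg, hs]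
          linarith
        have h3 := (hb h1).2
        have h4 := (hb h2).2
        rw [mem_closedBall] at h3 h4
        have h5 := dist_triangle_right (b + Pi.single 0 (((r + ρ / 2 : ℝ)) : ℂ))
          (b - Pi.single 0 (((r + ρ / 2 : ℝ)) : ℂ)) (centre d c₀)
        have h6 : dist (b + Pi.single 0 (((r + ρ / 2 : ℝ)) : ℂ))
            (b - Pi.single 0 (((r + ρ / 2 : ℝ)) : ℂ)) = 2 * (r + ρ / 2) := by
          rw [dist_eq_norm]
          have h7 : (b + Pi.single 0 (((r + ρ / 2 : ℝ)) : ℂ)) -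
              (b - Pi.single 0 (((r + ρ / 2 : ℝ)) : ℂ)) =
              (2 : ℝ) • (Pi.single 0 (((r + ρ / 2 : ℝ)) : ℂ) : Fin (d + 1) → ℂ) := by
            rw [two_smul]; abel
          rw [h7, norm_smul, hs]
          norm_num
        linarith
    refine Pool.Agent.Y298.CA.lim_of ?_ ?_
    · intro ε hε
      filter_upwards [hlow ε hε, hmem0] with r ⟨_, b, hb⟩ hr0
      exact le_csSup (hbdd r hr0) ⟨by positivity, b, hb⟩
    · intro ε hε
      have hEd : 1 ≤ (d : ℝ) / (d - 1) := by rw [le_div_iff₀ hd1]; linarith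
      have hE1 : 1 < (d : ℝ) / (d - 1) := by rw [lt_div_iff₀ hd1]; linarith
      have hs1 : 1 ≤ max 1 ((d : ℝ) / (d - 1) - ε / 2) := le_max_left _ _
      have hs2 : max 1 ((d : ℝ) / (d - 1) - ε / 2) < (d : ℝ) / (d - 1) :=
        max_lt hE1 (by linarith)
      obtain ⟨E, hEa, hEb⟩ := exists_between hs2
      have e1 : 2 * (d : ℝ) / (d - 1) = 2 * ((d : ℝ) / (d - 1)) := by ring
      obtain ⟨r₀, hr₀, H⟩ := Pool.Agent.Y272.GA.st_sigma (E := 2 * E) hd hc2 hs1 (by linarith)
        (Pool.Agent.Y272.GA.ar_lyap hd hL (by linarith) (by rw [e1]; linarith))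
      filter_upwards [hmem0, lt_ev hr₀, absorb (K := 1) (E := (d : ℝ) / (d - 1)) hε
        (le_max_right 1 _) zero_le_one] with r hr0 hr1 hr2
      rw [one_mul] at hr2
      refine Real.sSup_le ?_ (by positivity)
      rintro ρ ⟨hρ0, b, hb⟩
      refine le_trans ?_ hr2
      by_contra hcon
      rw [not_le] at hcon
      have hρ : 0 < ρ := lt_of_le_of_lt (by positivity) hcon
      have hb0 := (hb (mem_ball_self hρ)).2
      obtain ⟨t, ht1, ht2⟩ := H r hr0 hr1.le (poly b) (natDegree_poly b) (by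
        intro i
        rw [ball_eq hr0.le] at hb0
        rcases Nat.lt_or_ge i (d + 1) with hi | hi
        · have h3 := hb0 ⟨i, hi⟩
          have h4 := coeff_poly b ⟨i, hi⟩
          rw [h4]
          exact h3
        · have h3 : (poly b).coeff i = 0 :=
            coeff_eq_zero_of_natDegree_lt (lt_of_le_of_lt (natDegree_poly b) (by omega))
          have h4 : (X ^ d + C c₀ : ℂ[X]).coeff i = 0 := by
            rw [coeff_add, coeff_X_pow, if_neg (by omega), coeff_C, if_neg (by omega), add_zero]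
          rw [h3, h4, sub_zero, norm_zero]
          exact hr0.le)
      have h5 : b + Pi.single 0 t ∈ ball b ρ := by
        rw [mem_ball, dist_eq_norm, add_sub_cancel_left, Pi.norm_single]
        exact ht1.trans_lt hcon
      have h6 := hnot _ (h₂ (hb h5).1)
      apply h6
      have h7 : poly (b + Pi.single 0 t) = poly b + C t := by
        unfold poly
        simp only [Pi.add_apply, C_add, add_mul, Finset.sum_add_distrib]
        congr 1
        rw [Finset.sum_eq_single 0]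
        · simp
        · intro j _ hj
          rw [Pi.single_eq_of_ne hj, C_0, zero_mul]
        · intro h8
          exact absurd (Finset.mem_univ _) h8
      rw [h7]
      exact ht2

/-- Near every polynomial `z ^ d + c₀`, `c₀ ∈ M_d`, whose critical value has a Lyapunov exponent (in
particular for harmonic-almost every `c₀` in the boundary of the Multibrot set) the connectedness
locus in the space of all polynomials of degree `d`, the set of the hyperbolic maps with one sink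
attracting all critical points, and all sets between the latter and the set of all maps with a
non-escaping critical point have the same exact local order of volume and of inradius. -/
theorem result (d : ℕ) (hd : 2 ≤ d) :
    OneSink d ⊆ Conn d ∧ Conn d ⊆ NonShift d ∧
    (∀ (χ : ℝ) (c₀ : ℂ), Lyapunov d χ c₀ → ∀ S : Set (Fin (d + 1) → ℂ), OneSink d ⊆ S →
      S ⊆ NonShift d → ScalesAt d c₀ S) ∧
    (∃ ψ : ℂ → ℂ, IsExteriorMap (N62a1eb23.multibrotSet d) ψ) ∧
    ∀ ψ : ℂ → ℂ, IsExteriorMap (N62a1eb23.multibrotSet d) ψ →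
      ∀ᵐ θ : ℝ, ∃ c₀ ∈ frontier (N62a1eb23.multibrotSet d),
        Tendsto (fun r : ℝ => ψ (r * Complex.exp (θ * Complex.I))) (𝓝[>] 1) (𝓝 c₀) ∧
        Lyapunov d (Real.log d) c₀ ∧
        ∀ S : Set (Fin (d + 1) → ℂ), OneSink d ⊆ S → S ⊆ NonShift d → ScalesAt d c₀ S := by
  refine ⟨oneSink_sub, conn_sub hd, fun χ c₀ h S h₁ h₂ => scaling hd h h₁ h₂, ?_, ?_⟩
  · obtain ⟨β, hβ⟩ := Pool.Agent.H713R2.exists_beta (d := d) hd
    exact ⟨_, Pool.Agent.H713R2.exteriorMap_of_beta hβ⟩
  · obtain ⟨β, hβ⟩ := Pool.Agent.H713R2.exists_beta (d := d) hd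
    intro ψ hψ
    filter_upwards [Pool.Agent.Y272.TY.ae_neg' (Pool.Agent.Y272.TY.typical_all hd hβ)] with θ hθ
    obtain ⟨c₀, A, R, h⟩ := hθ
    obtain ⟨h1, h2, h3⟩ := Pool.Agent.Y298.CA.lyap_of_typ hd hβ h
    have hL : Lyapunov d (Real.log d) c₀ := by
      refine ⟨h1, h2, ?_, h3⟩
      rintro rfl rfl
      have h4 := Pool.Agent.Y272.GA.lyap_neg_two ⟨h1, h2, h3⟩
      have h5 := Real.log_injOn_pos (by norm_num : (((2 : ℕ) : ℝ)) ∈ Set.Ioi (0 : ℝ))
        (by norm_num : (4 : ℝ) ∈ Set.Ioi (0 : ℝ)) h4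
      norm_num at h5
    exact ⟨c₀, h.frontier hd hβ, h.tendsto_psi hβ hψ, hL, fun S h₁ h₂ => scaling hd hL h₁ h₂⟩

end Pool.Agent.Results.MP_28f8a1_an.ExactVolumeScaling
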