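import Mathlib
import Pool.Agent.W820.BM.Asm7

/-!
# MP_28f8a1_an: representing measures on the connectedness locus
-/

set_option autoImplicit false

open Filter Topology Polynomial MeasureTheory

namespace Pool.Agent.Results.MP_28f8a1_an.RepresentingMeasures

/-- The orbit of `z` under the polynomial `T` escapes to infinity. -/
def Escapes (T : ℂ[X]) (z : ℂ) : Prop :=
  Tendsto (fun k : ℕ => ‖(fun w : ℂ => T.eval w)^[k] z‖) atTop atTop

/-- The filled Julia set: the points which do not escape. -/
def K (T : ℂ[X]) : Set ℂ := {z : ℂ | ¬ Escapes T z}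

/-- The space of critically marked polynomials of degree `n + 1` with given leading coefficient: the
constant term `x none` and the list `x (some i)`, `i < n`, of the critical points. -/
abbrev Marked (n : ℕ) : Type := Option (Fin n) → ℂ

/-- The derivative `a (n + 1) ∏ (X - x (some i))`. -/
noncomputable def der (a : ℂ) {n : ℕ} (x : Marked n) : ℂ[X] :=
  C (a * ((n : ℂ) + 1)) * ∏ i : Fin n, (X - C (x (some i)))

/-- The polynomial of degree `n + 1` with leading coefficient `a`, critical points `x (some i)` and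
constant term `x none`: the antiderivative of `der a x` with this constant term. -/
noncomputable def poly (a : ℂ) {n : ℕ} (x : Marked n) : ℂ[X] :=
  C (x none) + ∑ j ∈ Finset.range (n + 1), monomial (j + 1) ((der a x).coeff j / ((j : ℂ) + 1))

/-- The connectedness locus: the marked polynomials with leading coefficient `a`, with the sum `σ`
of the critical points (equivalently, with given second coefficient), none of whose critical points
escapes. -/
def Locus (a : ℂ) (n : ℕ) (σ : ℂ) : Set (Marked n) :=
  {x | ∑ i : Fin n, x (some i) = σ ∧ ∀ i : Fin n, ¬ Escapes (poly a x) (x (some i))}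

/-- The largest difference of the coefficients of `S` and `T` at the exponents `0, …, n + 1`. -/
noncomputable def gap (n : ℕ) (S T : ℂ[X]) : ℝ :=
  ‖fun j : Fin (n + 2) => S.coeff j - T.coeff j‖

/-- `μ` is a probability measure carried by `M` which represents the point `x₀` for the functions
holomorphic near `M`: every function holomorphic on an open neighbourhood of `M` is `μ`-integrable
with mean value `h x₀`. -/
def Represents {n : ℕ} (μ : Measure (Marked n)) (M : Set (Marked n)) (x₀ : Marked n) : Prop :=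
  IsProbabilityMeasure μ ∧ (∀ᵐ x ∂μ, x ∈ M) ∧
    ∀ (Ω : Set (Marked n)) (h : Marked n → ℂ), IsOpen Ω → M ⊆ Ω → DifferentiableOn ℂ h Ω →
      Integrable h μ ∧ ∫ x, h x ∂μ = h x₀

theorem poly_eq (a : ℂ) {n : ℕ} (x : Marked n) :
    poly a x = Pool.Agent.H713R3.ZA.fam a n x := by
  rfl

theorem K_eq (T : ℂ[X]) : K T = Pool.Agent.H713R3.ZA.KJ T := rfl

theorem coeff_cont (a : ℂ) {n : ℕ} (j : ℕ) :
    Continuous fun x : Marked n => (poly a x).coeff j :=
  (Pool.Agent.H713R3.ZA.pfe_fam a n j).continuous

theorem eq_of_gap {a : ℂ} {n : ℕ} {x x₀ : Marked n}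
    (h : gap n (poly a x) (poly a x₀) = 0) : x none = x₀ none ∧ der a x = der a x₀ := by
  have h1 : ∀ j : Fin (n + 2), (poly a x).coeff j = (poly a x₀).coeff j := by
    intro j
    have h2 : (fun j : Fin (n + 2) => (poly a x).coeff j - (poly a x₀).coeff j) = 0 :=
      norm_eq_zero.1 h
    exact sub_eq_zero.1 (congrFun h2 j)
  have h2 : poly a x = poly a x₀ := by
    ext j
    rcases lt_or_ge j (n + 2) with hj | hj
    · exact h1 ⟨j, hj⟩
    · rw [coeff_eq_zero_of_natDegree_lt, coeff_eq_zero_of_natDegree_lt]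
      · exact lt_of_le_of_lt (Pool.Agent.H713R3.ZA.natDegree_fam_le a n x₀) (by omega)
      · exact lt_of_le_of_lt (Pool.Agent.H713R3.ZA.natDegree_fam_le a n x) (by omega)
  refine ⟨?_, ?_⟩
  · have h3 := h1 ⟨0, by omega⟩
    have h4 := Pool.Agent.H713R3.ZA.coeff_fam_zero a n x
    have h5 := Pool.Agent.H713R3.ZA.coeff_fam_zero a n x₀
    rw [← h4, ← h5]
    exact h3
  · have h3 := Pool.Agent.H713R3.ZA.derivative_fam a n x
    have h4 := Pool.Agent.H713R3.ZA.derivative_fam a n x₀
    have h5 : der a x = Pool.Agent.H713R3.ZA.dfam a n x := rfl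
    have h6 : der a x₀ = Pool.Agent.H713R3.ZA.dfam a n x₀ := rfl
    rw [h5, h6, ← h3, ← h4]
    exact congrArg derivative h2

/-- If the coordinate `o` takes only finitely many values under `μ` then it is almost surely equal
to `x₀ o`. -/
theorem coord_eq {n : ℕ} {μ : Measure (Marked n)} {M : Set (Marked n)} {x₀ : Marked n}
    (hμ : Represents μ M x₀) (o : Option (Fin n)) {R : Set ℂ} (hR : R.Finite)
    (h : ∀ᵐ x ∂μ, x o ∈ R) : ∀ᵐ x ∂μ, x o = x₀ o := by
  classical
  obtain ⟨hP, -, hrep⟩ := hμ
  set F : Finset ℂ := hR.toFinset.erase (x₀ o) with hF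
  set q : Marked n → ℂ := fun x => ∏ r ∈ F, ((x o - r) / (x₀ o - r)) with hq
  have hdiff : DifferentiableOn ℂ q Set.univ := by
    apply Differentiable.differentiableOn
    have h1 : Differentiable ℂ (fun w : ℂ => ∏ r ∈ F, ((w - r) / (x₀ o - r))) := by
      apply Differentiable.fun_finsetProd
      intro r _
      exact (differentiable_id.sub_const r).div_const _
    exact h1.comp (differentiable_apply o)
  obtain ⟨hint, hval⟩ := hrep Set.univ q isOpen_univ (Set.subset_univ _) hdiff
  have hne : ∀ r ∈ F, x₀ o - r ≠ 0 := by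
    intro r hr
    rw [hF, Finset.mem_erase] at hr
    exact sub_ne_zero.2 (Ne.symm hr.1)
  have hx₀ : q x₀ = 1 := by
    simp only [hq]
    exact Finset.prod_eq_one fun r hr => div_self (hne r hr)
  have hae : ∀ᵐ x ∂μ, q x = Set.indicator {x : Marked n | x o = x₀ o} (fun _ => (1 : ℂ)) x := by
    filter_upwards [h] with x hx
    by_cases hxo : x o = x₀ o
    · rw [Set.indicator_of_mem (show x ∈ {x : Marked n | x o = x₀ o} from hxo)]
      simp only [hq, hxo]
      exact Finset.prod_eq_one fun r hr => div_self (hne r hr)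
    · rw [Set.indicator_of_notMem (show x ∉ {x : Marked n | x o = x₀ o} from hxo)]
      simp only [hq]
      apply Finset.prod_eq_zero (i := x o)
      · rw [hF, Finset.mem_erase, Set.Finite.mem_toFinset]
        exact ⟨hxo, hx⟩
      · simp
  have hmeas : MeasurableSet {x : Marked n | x o = x₀ o} :=
    measurableSet_eq_fun (measurable_pi_apply o) measurable_const
  rw [hx₀, integral_congr_ae hae, integral_indicator hmeas, setIntegral_const] at hval
  have h1 : μ.real {x : Marked n | x o = x₀ o} = 1 := by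
    have h5 := congrArg Complex.re hval
    simpa using h5
  have h2 : μ {x : Marked n | x o = x₀ o} = 1 := by
    rw [measureReal_def] at h1
    rw [← ENNReal.ofReal_toReal (measure_ne_top μ _), h1, ENNReal.ofReal_one]
  rw [ae_iff]
  have h3 : {x : Marked n | ¬ x o = x₀ o} = {x : Marked n | x o = x₀ o}ᶜ := rfl
  rw [h3, prob_compl_eq_one_sub hmeas, h2]
  simp

/-- **Representing measures on the connectedness locus.** Let `n ≥ 1`, `a ≠ 0` and `b ≥ 0`. There is
a constant `C` with the following properties. Let `x₀` be a point of the connectedness locus of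
critically marked polynomials with leading coefficient `a` and sum of the critical points `σ`,
`‖σ‖ ≤ b`, and let `T` be its polynomial.

(1) For every representing measure `μ` of `x₀` on the locus, the mean value of the squared distance
to `T` is at most `C` times the area of the filled Julia set of `T`.

(2) If the filled Julia set of `T` has zero area then `x₀` has no representing measure on the locus
but the point mass. -/
theorem result (n : ℕ) (hn : 1 ≤ n) (a : ℂ) (ha : a ≠ 0) (b : ℝ) (hb : 0 ≤ b) :
    ∃ C : ℝ, 0 < C ∧ ∀ (σ : ℂ), ‖σ‖ ≤ b → ∀ x₀ ∈ Locus a n σ,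
      volume (K (poly a x₀)) < ⊤ ∧
      (∀ μ : Measure (Marked n), Represents μ (Locus a n σ) x₀ →
        ∫⁻ x, ENNReal.ofReal (gap n (poly a x) (poly a x₀) ^ 2) ∂μ ≤
          ENNReal.ofReal C * volume (K (poly a x₀))) ∧
      (volume (K (poly a x₀)) = 0 → ∀ μ : Measure (Marked n),
        Represents μ (Locus a n σ) x₀ → μ = Measure.dirac x₀) := by
  obtain ⟨C, hC, hpk⟩ := Pool.Agent.W820.BM.peakQ ha hn hb
  refine ⟨C ^ 2, by positivity, fun σ hσ x₀ hx₀ => ?_⟩
  obtain ⟨hsum, hcrit⟩ := hx₀
  obtain ⟨hvol, hpk⟩ := hpk x₀ (by rw [hsum]; exact hσ) hcrit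
  set V := volume (K (poly a x₀)) with hV
  have hV' : volume (Pool.Agent.H713R3.ZA.KJ (Pool.Agent.H713R3.ZA.fam a n x₀)) = V := rfl
  rw [hV'] at hvol hpk
  have key : ∀ μ : Measure (Marked n), Represents μ (Locus a n σ) x₀ →
        ∫⁻ x, ENNReal.ofReal (gap n (poly a x) (poly a x₀) ^ 2) ∂μ ≤
          ENNReal.ofReal (C ^ 2) * V := by
    rintro μ ⟨hP, hM, hrep⟩
    have hstep : ∀ δ : ℝ, 0 < δ →
        ∫⁻ x, ENNReal.ofReal (gap n (poly a x) (poly a x₀) ^ 2) ∂μ ≤
          ENNReal.ofReal (C ^ 2) * (V + ENNReal.ofReal δ) := by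
      intro δ hδ
      obtain ⟨Ω, h, hΩ, hh, h0, hin⟩ := hpk δ hδ
      have hsub : Locus a n σ ⊆ Ω := fun x hx => (hin x (by rw [hx.1, hsum]) hx.2).1
      obtain ⟨hint, hval⟩ := hrep Ω h hΩ hsub hh
      have hre : ∫ x, (h x).re ∂μ = 0 := by
        have h1 : ∫ x, (h x).re ∂μ = (∫ x, h x ∂μ).re := integral_re hint
        rw [h1, hval, h0, Complex.zero_re]
      have hbd : ∀ᵐ x ∂μ, (gap n (poly a x) (poly a x₀) / C) ^ 2 ≤ V.toReal + δ - (h x).re := by
        filter_upwards [hM] with x hx
        obtain ⟨-, h1⟩ := hin x (by rw [hx.1, hsum]) hx.2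
        obtain ⟨j, hj⟩ : ∃ j : Fin (n + 2), gap n (poly a x) (poly a x₀) =
            ‖(poly a x).coeff j - (poly a x₀).coeff j‖ := by
          obtain ⟨j, -, hj⟩ := Finset.exists_max_image (Finset.univ : Finset (Fin (n + 2)))
            (fun j => ‖(poly a x).coeff j - (poly a x₀).coeff j‖) Finset.univ_nonempty
          refine ⟨j, le_antisymm ?_ ?_⟩
          · exact (pi_norm_le_iff_of_nonneg (norm_nonneg _)).2 fun i => hj i (Finset.mem_univ i)
          · exact norm_le_pi_norm
              (fun j : Fin (n + 2) => (poly a x).coeff j - (poly a x₀).coeff j) j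
        rw [hj]
        have h2 := h1 j
        rw [← poly_eq, ← poly_eq] at h2
        linarith
      have hint2 : Integrable (fun x => V.toReal + δ - (h x).re) μ :=
        (integrable_const _).sub hint.re
      have hnn : 0 ≤ᵐ[μ] fun x => V.toReal + δ - (h x).re := by
        filter_upwards [hbd] with x hx
        exact (sq_nonneg _).trans hx
      have hI : ∫ x, (V.toReal + δ - (h x).re) ∂μ = V.toReal + δ := by
        have h1 : ∫ x, (V.toReal + δ - (h x).re) ∂μ
            = ∫ x, (V.toReal + δ) ∂μ - ∫ x, (h x).re ∂μ :=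
          integral_sub (integrable_const _) hint.re
        rw [h1, hre, sub_zero, integral_const, probReal_univ, one_smul]
      calc ∫⁻ x, ENNReal.ofReal (gap n (poly a x) (poly a x₀) ^ 2) ∂μ
          ≤ ∫⁻ x, ENNReal.ofReal (C ^ 2) * ENNReal.ofReal (V.toReal + δ - (h x).re) ∂μ := by
            refine lintegral_mono_ae ?_
            filter_upwards [hbd] with x hx
            rw [← ENNReal.ofReal_mul (by positivity)]
            apply ENNReal.ofReal_le_ofReal
            rw [div_pow, div_le_iff₀ (by positivity)] at hx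
            linarith
        _ = ENNReal.ofReal (C ^ 2) * ∫⁻ x, ENNReal.ofReal (V.toReal + δ - (h x).re) ∂μ :=
            lintegral_const_mul' _ _ ENNReal.ofReal_ne_top
        _ = ENNReal.ofReal (C ^ 2) * ENNReal.ofReal (V.toReal + δ) := by
            rw [← ofReal_integral_eq_lintegral_ofReal hint2 hnn, hI]
        _ = ENNReal.ofReal (C ^ 2) * (V + ENNReal.ofReal δ) := by
            rw [ENNReal.ofReal_add ENNReal.toReal_nonneg hδ.le, ENNReal.ofReal_toReal hvol.ne]
    have hlim : Tendsto (fun δ : ℝ => ENNReal.ofReal (C ^ 2) * (V + ENNReal.ofReal δ)) (𝓝[>] 0)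
        (𝓝 (ENNReal.ofReal (C ^ 2) * (V + ENNReal.ofReal 0))) := by
      refine ENNReal.Tendsto.const_mul ?_ (Or.inr ENNReal.ofReal_ne_top)
      refine Tendsto.add tendsto_const_nhds ?_
      exact (ENNReal.continuous_ofReal.tendsto 0).mono_left nhdsWithin_le_nhds
    rw [ENNReal.ofReal_zero, add_zero] at hlim
    refine ge_of_tendsto hlim ?_
    filter_upwards [self_mem_nhdsWithin] with δ hδ
    exact hstep δ hδ
  refine ⟨hvol, key, fun h0 μ hμ => ?_⟩
  have h1 := key μ hμ
  rw [h0, mul_zero, nonpos_iff_eq_zero] at h1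
  have hmeas : Measurable fun x : Marked n => gap n (poly a x) (poly a x₀) := by
    refine (measurable_pi_lambda _ fun j => ?_).norm
    exact ((coeff_cont a j).measurable).sub_const _
  have hT : ∀ᵐ x ∂μ, gap n (poly a x) (poly a x₀) = 0 := by
    rw [lintegral_eq_zero_iff (hmeas.pow_const 2).ennreal_ofReal] at h1
    filter_upwards [h1] with x hx
    have h2 : gap n (poly a x) (poly a x₀) ^ 2 ≤ 0 := by
      simpa using hx
    exact pow_eq_zero_iff (two_ne_zero) |>.1 (le_antisymm h2 (sq_nonneg _))
  have hfin : {r : ℂ | (der a x₀).IsRoot r}.Finite := by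
    refine Polynomial.finite_setOfPred_isRoot ?_
    unfold der
    refine mul_ne_zero ?_ (Finset.prod_ne_zero_iff.2 fun i _ => X_sub_C_ne_zero _)
    rw [Ne, C_eq_zero]
    exact mul_ne_zero ha (Nat.cast_add_one_ne_zero n)
  have hcoord : ∀ o : Option (Fin n), ∀ᵐ x ∂μ, x o = x₀ o := by
    rintro (_ | i)
    · refine coord_eq hμ none (Set.finite_singleton (x₀ none)) ?_
      filter_upwards [hT] with x hx
      have := (eq_of_gap hx).1
      exact this
    · refine coord_eq hμ (some i) hfin ?_
      filter_upwards [hT] with x hx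
      have h3 := (eq_of_gap hx).2
      show (der a x₀).IsRoot (x (some i))
      rw [← h3]
      unfold der
      rw [IsRoot.def, eval_mul, eval_prod, Finset.prod_eq_zero (Finset.mem_univ i), mul_zero]
      simp
  have hall : ∀ᵐ x ∂μ, x = x₀ := by
    have h4 : ∀ᵐ x ∂μ, ∀ o, x o = x₀ o := ae_all_iff.2 hcoord
    filter_upwards [h4] with x hx
    exact funext hx
  have := hμ.1
  ext s hs
  rw [Measure.dirac_apply' _ hs]
  by_cases hxs : x₀ ∈ s
  · rw [Set.indicator_of_mem hxs]
    have h7 : ∀ᵐ x ∂μ, x ∈ s := by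
      filter_upwards [hall] with x hx
      rw [hx]; exact hxs
    have h8 : μ sᶜ = 0 := ae_iff.1 h7
    rw [(prob_compl_eq_zero_iff hs).1 h8]
    rfl
  · rw [Set.indicator_of_notMem hxs]
    have : ∀ᵐ x ∂μ, x ∉ s := by
      filter_upwards [hall] with x hx
      rw [hx]; exact hxs
    simpa [ae_iff] using this

end Pool.Agent.Results.MP_28f8a1_an.RepresentingMeasures
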